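import Pool.Agent.AFX.Stmts

/-!
# Squad AFX, row TOW (a proper extension operation gives companions)
-/

open FirstOrder FirstOrder.Language Cardinal Set CategoryTheory CategoryTheory.Limits

universe u

namespace Pool.Agent.AFX.H1

open Pool.Agent.AEC

variable {L : FirstOrder.Language.{u, u}} {κ : Cardinal.{u}}

/-- squares under the maps `f j : M → B j` -/
structure Sq (K : AEC L κ) (M : K.Mod) {ι : Type u} (B : ι → K.Mod)
    (f : ∀ j, K.Hom M (B j)) : Type (u + 1) where
  A : K.Mod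
  e : K.Hom M A
  C : ι → K.Mod
  g : ∀ j, K.Hom A (C j)
  c : ∀ j, K.Hom (B j) (C j)
  w : ∀ j x, g j (e x) = c j (f j x)

/-- maps of squares -/
structure SHom {K : AEC L κ} {M : K.Mod} {ι : Type u} {B : ι → K.Mod}
    {f : ∀ j, K.Hom M (B j)} (X Y : Sq K M B f) : Type u where
  a : K.Hom X.A Y.A
  b : ∀ j, K.Hom (X.C j) (Y.C j)
  ha : ∀ x, a (X.e x) = Y.e x
  hb : ∀ j x, b j (X.c j x) = Y.c j x
  hg : ∀ j x, b j (X.g j x) = Y.g j (a x)

variable {K : AEC L κ} {M : K.Mod} {ι : Type u} {B : ι → K.Mod} {f : ∀ j, K.Hom M (B j)}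

theorem SHom.ext' {X Y : Sq K M B f} {p q : SHom X Y} (h : ∀ x, p.a x = q.a x)
    (h' : ∀ j x, p.b j x = q.b j x) : p = q := by
  obtain ⟨a, b, _, _, _⟩ := p
  obtain ⟨a', b', _, _, _⟩ := q
  have h1 : a = a' := AEC.Hom.ext h
  have h2 : b = b' := funext fun j => AEC.Hom.ext (h' j)
  subst h1
  subst h2
  rfl

instance : Category.{u} (Sq K M B f) where
  Hom X Y := SHom X Y
  id X := ⟨AEC.Hom.id X.A, fun j => AEC.Hom.id (X.C j), fun _ => rfl, fun _ _ => rfl,
    fun _ _ => rfl⟩
  comp p q := ⟨q.a.comp p.a, fun j => (q.b j).comp (p.b j), fun x => by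
    rw [AEC.Hom.comp_apply, p.ha, q.ha], fun j x => by
    rw [AEC.Hom.comp_apply, p.hb, q.hb], fun j x => by
    rw [AEC.Hom.comp_apply, p.hg, q.hg, AEC.Hom.comp_apply]⟩
  id_comp p := SHom.ext' (fun _ => rfl) (fun _ _ => rfl)
  comp_id p := SHom.ext' (fun _ => rfl) (fun _ _ => rfl)
  assoc p q r := SHom.ext' (fun _ => rfl) (fun _ _ => rfl)

theorem hext {X Y : Sq K M B f} {p q : X ⟶ Y} (h : ∀ x, p.a x = q.a x)
    (h' : ∀ j x, p.b j x = q.b j x) : p = q := SHom.ext' h h'

variable {J : Type u} [LinearOrder J] [Nonempty J]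

theorem exists_colim (dlm : DlmStmt.{u}) (dlu : DluStmt.{u}) (G : J ⥤ Sq K M B f) :
    ∃ c : Cocone G, Nonempty (IsColimit c) := by
  obtain ⟨i0⟩ := ‹Nonempty J›
  have hne : Nonempty J := ⟨i0⟩
  let m : ∀ i j : J, i ≤ j → K.Hom (G.obj i).A (G.obj j).A := fun i j h => (G.map (homOfLE h)).a
  let n : ∀ (k : ι) (i j : J), i ≤ j → K.Hom ((G.obj i).C k) ((G.obj j).C k) :=
    fun k i j h => (G.map (homOfLE h)).b k
  have gid : ∀ i, G.map (homOfLE (le_refl i)) = 𝟙 (G.obj i) := fun i => G.map_id i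
  have gco : ∀ i j k (hij : i ≤ j) (hjk : j ≤ k), G.map (homOfLE (hij.trans hjk)) =
      G.map (homOfLE hij) ≫ G.map (homOfLE hjk) := by
    intro i j k hij hjk
    rw [← G.map_comp]
    rfl
  have m1 : ∀ i x, m i i le_rfl x = x := by
    intro i x
    show (G.map (homOfLE (le_refl i))).a x = x
    rw [gid]
    rfl
  have m2 : ∀ i j k (hij : i ≤ j) (hjk : j ≤ k) x,
      m j k hjk (m i j hij x) = m i k (hij.trans hjk) x := by
    intro i j k hij hjk x
    show (G.map (homOfLE hjk)).a ((G.map (homOfLE hij)).a x) = (G.map (homOfLE (hij.trans hjk))).a x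
    rw [gco i j k hij hjk]
    rfl
  have n1 : ∀ k i x, n k i i le_rfl x = x := by
    intro k i x
    show (G.map (homOfLE (le_refl i))).b k x = x
    rw [gid]
    rfl
  have n2 : ∀ k' i j k (hij : i ≤ j) (hjk : j ≤ k) x,
      n k' j k hjk (n k' i j hij x) = n k' i k (hij.trans hjk) x := by
    intro k' i j k hij hjk x
    show (G.map (homOfLE hjk)).b k' ((G.map (homOfLE hij)).b k' x) =
      (G.map (homOfLE (hij.trans hjk))).b k' x
    rw [gco i j k hij hjk]
    rfl
  have me : ∀ i j (h : i ≤ j) x, m i j h ((G.obj i).e x) = (G.obj j).e x := fun i j h x =>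
    (G.map (homOfLE h)).ha x
  have nc : ∀ k i j (h : i ≤ j) x, n k i j h ((G.obj i).c k x) = (G.obj j).c k x :=
    fun k i j h x => (G.map (homOfLE h)).hb k x
  have ng : ∀ k i j (h : i ≤ j) x, n k i j h ((G.obj i).g k x) = (G.obj j).g k (m i j h x) :=
    fun k i j h x => (G.map (homOfLE h)).hg k x
  obtain ⟨D, s, hs, hsurj⟩ := dlm L κ K J (fun i => (G.obj i).A) m m1 m2
  have hE := fun k => dlm L κ K J (fun i => (G.obj i).C k) (n k) (n1 k) (n2 k)
  choose E t ht htsurj using hE
  have hr := fun k => dlu L κ K J (fun i => (G.obj i).A) D s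
      (fun i j hij x => ⟨m i j hij x, hs i j hij x⟩) hsurj (E k)
      (fun i => (t k i).comp ((G.obj i).g k)) (by
        intro i j hij x y hxy
        have h1 : y = m i j hij x := (s j).injective (by rw [hxy, hs])
        rw [h1]
        show t k j ((G.obj j).g k (m i j hij x)) = t k i ((G.obj i).g k x)
        rw [← ng, ht])
  choose r hr using hr
  have hr' : ∀ k i x, r k (s i x) = t k i ((G.obj i).g k x) := hr
  have hse : ∀ i j x, s i ((G.obj i).e x) = s j ((G.obj j).e x) := by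
    intro i j x
    rcases le_total i j with h | h
    · rw [← me i j h, hs]
    · rw [← me j i h, hs]
  have hte : ∀ k i j x, t k i ((G.obj i).c k x) = t k j ((G.obj j).c k x) := by
    intro k i j x
    rcases le_total i j with h | h
    · rw [← nc k i j h, ht]
    · rw [← nc k j i h, ht]
  let P : Sq K M B f := ⟨D, (s i0).comp (G.obj i0).e, E, r,
    fun k => (t k i0).comp ((G.obj i0).c k), by
      intro k x
      show r k (s i0 ((G.obj i0).e x)) = t k i0 ((G.obj i0).c k (f k x))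
      rw [hr', (G.obj i0).w]⟩
  let q : ∀ i, G.obj i ⟶ P := fun i => ⟨s i, fun k => t k i, fun x => hse i i0 x,
    fun k x => hte k i i0 x, fun k x => (hr' k i x).symm⟩
  let c : Cocone G := ⟨P, ⟨fun i => q i, by
    intro i j p
    refine hext (fun x => ?_) (fun k x => ?_)
    · show s j ((G.map p).a x) = s i x
      exact hs i j (leOfHom p) x
    · show t k j ((G.map p).b k x) = t k i x
      exact ht k i j (leOfHom p) x⟩⟩
  have desc : ∀ c' : Cocone G, ∃ w : P ⟶ c'.pt, (∀ i x, w.a (s i x) = (c'.ι.app i).a x) ∧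
      ∀ k i x, w.b k (t k i x) = (c'.ι.app i).b k x := by
    intro c'
    obtain ⟨w, hw⟩ := dlu L κ K J (fun i => (G.obj i).A) D s
      (fun i j hij x => ⟨m i j hij x, hs i j hij x⟩) hsurj c'.pt.A (fun i => (c'.ι.app i).a) (by
        intro i j hij x y hxy
        have h1 : y = m i j hij x := (s j).injective (by rw [hxy, hs])
        rw [h1]
        have h2 := c'.w (homOfLE hij)
        exact congrArg (fun p : G.obj i ⟶ c'.pt => p.a x) h2)
    have hv := fun k => dlu L κ K J (fun i => (G.obj i).C k) (E k) (t k)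
      (fun i j hij x => ⟨n k i j hij x, ht k i j hij x⟩) (htsurj k) (c'.pt.C k)
      (fun i => (c'.ι.app i).b k) (by
        intro i j hij x y hxy
        have h1 : y = n k i j hij x := (t k j).injective (by rw [hxy, ht])
        rw [h1]
        have h2 := c'.w (homOfLE hij)
        exact congrArg (fun p : G.obj i ⟶ c'.pt => p.b k x) h2)
    choose v hv using hv
    refine ⟨⟨w, v, fun x => ?_, fun k x => ?_, fun k y => ?_⟩, hw, hv⟩
    · show w (s i0 ((G.obj i0).e x)) = c'.pt.e x
      rw [hw]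
      exact (c'.ι.app i0).ha x
    · show v k (t k i0 ((G.obj i0).c k x)) = c'.pt.c k x
      rw [hv]
      exact (c'.ι.app i0).hb k x
    · obtain ⟨i, x, rfl⟩ := hsurj y
      show v k (r k (s i x)) = c'.pt.g k (w (s i x))
      rw [hr', hv, hw]
      exact (c'.ι.app i).hg k x
  choose w hw hv using desc
  refine ⟨c, ⟨⟨fun c' => w c', ?_, ?_⟩⟩⟩
  · intro c' i
    exact hext (fun x => hw c' i x) (fun k x => hv c' k i x)
  · intro c' p hp
    refine hext (fun y => ?_) (fun k y => ?_)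
    · obtain ⟨i, x, rfl⟩ := hsurj y
      have h1 := congrArg (fun p : G.obj i ⟶ c'.pt => p.a x) (hp i)
      exact h1.trans (hw c' i x).symm
    · obtain ⟨i, x, rfl⟩ := htsurj k y
      have h1 := congrArg (fun p : G.obj i ⟶ c'.pt => p.b k x) (hp i)
      exact h1.trans (hv c' k i x).symm

theorem hasColim (dlm : DlmStmt.{u}) (dlu : DluStmt.{u}) :
    HasColimitsOfShape J (Sq K M B f) := by
  refine ⟨fun G => ?_⟩
  obtain ⟨c0, ⟨h0⟩⟩ := exists_colim dlm dlu G
  exact ⟨⟨⟨c0, h0⟩⟩⟩

/-- what a step does -/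
def Good : MorphismProperty (Sq K M B f) := fun X _ p => κ ≤ #X.A.α → ¬ Function.Surjective p.a

theorem tow (dlm : DlmStmt.{u}) (dlu : DluStmt.{u}) : TowStmt.{u} := by
  intro L κ K hop θ₀ M ι B f hM
  obtain ⟨T, i, hi, hT⟩ := hop
  choose Tf hTf using hT
  classical
  let θ : Cardinal.{u} := max θ₀ ℵ₀
  have hinf : ℵ₀ ≤ θ := le_max_right _ _
  let J : Type u := θ.ord.ToType
  have hJ : #J = θ := by simp [J]
  have hJne : Nonempty J := by
    rw [← Cardinal.mk_ne_zero_iff, hJ]
    exact (Cardinal.aleph0_pos.trans_le hinf).ne'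
  haveI : NoMaxOrder J := Cardinal.noMaxOrder hinf
  letI : SuccOrder J := SuccOrder.ofLinearWellFoundedLT J
  letI : OrderBot J := WellFoundedLT.toOrderBot J
  let succ : Sq K M B f → Sq K M B f := fun X => ⟨T X.A, (i X.A).comp X.e, fun j => T (X.C j),
    fun j => Tf _ _ (X.g j), fun j => (i (X.C j)).comp (X.c j), by
      intro j x
      show Tf _ _ (X.g j) (i X.A (X.e x)) = i (X.C j) (X.c j (f j x))
      rw [hTf, X.w]⟩
  let toSucc : ∀ X : Sq K M B f, X ⟶ succ X := fun X => ⟨i X.A, fun j => i (X.C j),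
    fun _ => rfl, fun _ _ => rfl, fun j x => (hTf _ _ (X.g j) x).symm⟩
  let Φ : SmallObject.SuccStruct (Sq K M B f) :=
    ⟨⟨M, AEC.Hom.id M, B, f, fun j => AEC.Hom.id (B j), fun _ _ => rfl⟩, succ, toSucc⟩
  have hprop : ∀ {X Y : Sq K M B f} (p : X ⟶ Y), Φ.prop p → Good p := by
    rintro X Y p ⟨⟩
    exact hi _
  haveI : HasIterationOfShape J (Sq K M B f) :=
    { hasColimitsOfShape_of_isSuccLimit := by
        intro j hj
        obtain ⟨i, hi⟩ := not_isMin_iff.1 hj.1
        haveI : Nonempty (Set.Iio j) := ⟨⟨i, hi⟩⟩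
        exact hasColim dlm dlu
      hasColimitsOfShape := hasColim dlm dlu }
  let F : J ⥤ Sq K M B f := Φ.iterationFunctor J
  obtain ⟨c0, -⟩ := exists_colim dlm dlu F
  refine ⟨c0.pt.A, c0.pt.e, ?_, fun j => ⟨c0.pt.C j, c0.pt.g j, c0.pt.c j, c0.pt.w j⟩⟩
  refine (le_max_left θ₀ ℵ₀).trans ?_
  show θ ≤ #c0.pt.A.α
  have hs : ∀ (a b : J) (h : a ≤ b) x, (c0.ι.app b).a ((F.map (homOfLE h)).a x) =
      (c0.ι.app a).a x := by
    intro a b h x
    exact congrArg (fun p : F.obj a ⟶ c0.pt => p.a x) (c0.w (homOfLE h))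
  have hsz : ∀ a : J, κ ≤ #(F.obj a).A.α := fun a =>
    hM.trans (Cardinal.mk_le_of_injective (F.obj a).e.injective)
  have hy : ∀ a : J, ∃ y : (F.obj (Order.succ a)).A.α,
      ∀ x, (F.map (homOfLE (Order.le_succ a))).a x ≠ y := by
    intro a
    by_contra hcon
    push Not at hcon
    exact hprop _ (Φ.prop_iterationFunctor_map_succ a (not_isMax a)) (hsz a) hcon
  choose y hy using hy
  have hinj : Function.Injective
      (fun a : J => (show c0.pt.A.α from (c0.ι.app (Order.succ a)).a (y a))) := by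
    intro a a' h
    replace h : (c0.ι.app (Order.succ a)).a (y a) = (c0.ι.app (Order.succ a')).a (y a') := h
    by_contra hne
    wlog hlt : a < a' generalizing a a' with H
    · exact H h.symm (Ne.symm hne) (lt_of_le_of_ne (not_lt.1 hlt) (Ne.symm hne))
    have h1 : Order.succ a ≤ a' := Order.succ_le_of_lt hlt
    have h2 : (c0.ι.app (Order.succ a)).a (y a) = (c0.ι.app (Order.succ a')).a
        ((F.map (homOfLE (Order.le_succ a'))).a ((F.map (homOfLE h1)).a (y a))) := by
      rw [hs, hs]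
    have h3 : (c0.ι.app (Order.succ a')).a
        ((F.map (homOfLE (Order.le_succ a'))).a ((F.map (homOfLE h1)).a (y a))) =
        (c0.ι.app (Order.succ a')).a (y a') := by
      rw [← h2]
      exact h
    exact hy a' _ (((c0.ι.app (Order.succ a')).a).injective h3)
  calc θ = #J := hJ.symm
    _ ≤ #c0.pt.A.α := Cardinal.mk_le_of_injective hinj

end Pool.Agent.AFX.H1
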