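import Pool.Agent.AFX.StmtsB
import Pool.Agent.Helper1_AFX.TOW

/-!
# Squad AFX, row TO3 (chosen free extensions, local form of TOW)
-/

open FirstOrder FirstOrder.Language Cardinal Set CategoryTheory CategoryTheory.Limits

universe u

namespace Pool.Agent.AFX.H1

open Pool.Agent.AEC

variable {L : FirstOrder.Language.{u, u}} {κ : Cardinal.{u}}
variable {K : AEC L κ} {M : K.Mod} {ι : Type u} {B : ι → K.Mod} {f : ∀ j, K.Hom M (B j)}

/-- what a step does -/
def GoodT (θ : Cardinal.{u}) : MorphismProperty (Sq K M B f) :=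
  fun X _ p => #X.A.α < θ → ¬ Function.Surjective p.a

theorem free_id (A : K.Mod) : Free (AEC.Hom.id A) := fun P g => ⟨P, g, AEC.Hom.id P, fun _ => rfl⟩

theorem to3 (dlm : DlmStmt.{u}) (dlu : DluStmt.{u}) : To3Stmt.{u} := by
  intro L κ K M θ hinf hT ι B f
  classical
  have hstep : ∀ A : K.Mod, ∃ (T : K.Mod) (i : K.Hom A T),
      (K.Hom M A → #A.α < θ → ¬ Function.Surjective i) ∧ Free i := by
    intro A
    by_cases h : Nonempty (K.Hom M A) ∧ #A.α < θ
    · obtain ⟨⟨e⟩, hlt⟩ := h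
      obtain ⟨T, i, h1, h2⟩ := hT A e hlt
      exact ⟨T, i, fun _ _ => h1, h2⟩
    · exact ⟨A, AEC.Hom.id A, fun e hlt => absurd ⟨⟨e⟩, hlt⟩ h, free_id A⟩
  choose T i hi hfree using hstep
  have hfree' : ∀ (A P : K.Mod) (g : K.Hom A P), ∃ (Z : K.Mod) (p : K.Hom (T A) Z)
      (q : K.Hom P Z), ∀ x, p (i A x) = q (g x) := fun A P g => hfree A P g
  choose U a b hab using hfree'
  let J : Type u := θ.ord.ToType
  have hJ : #J = θ := by simp [J]
  have hJne : Nonempty J := by
    rw [← Cardinal.mk_ne_zero_iff, hJ]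
    exact (Cardinal.aleph0_pos.trans_le hinf).ne'
  haveI : NoMaxOrder J := Cardinal.noMaxOrder hinf
  letI : SuccOrder J := SuccOrder.ofLinearWellFoundedLT J
  letI : OrderBot J := WellFoundedLT.toOrderBot J
  let succ : Sq K M B f → Sq K M B f := fun X => ⟨T X.A, (i X.A).comp X.e,
    fun j => U _ _ (X.g j), fun j => a _ _ (X.g j), fun j => (b _ _ (X.g j)).comp (X.c j), by
      intro j x
      show a _ _ (X.g j) (i X.A (X.e x)) = b _ _ (X.g j) (X.c j (f j x))
      rw [hab, X.w]⟩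
  let toSucc : ∀ X : Sq K M B f, X ⟶ succ X := fun X => ⟨i X.A, fun j => b _ _ (X.g j),
    fun _ => rfl, fun _ _ => rfl, fun j x => (hab _ _ (X.g j) x).symm⟩
  let Φ : SmallObject.SuccStruct (Sq K M B f) :=
    ⟨⟨M, AEC.Hom.id M, B, f, fun j => AEC.Hom.id (B j), fun _ _ => rfl⟩, succ, toSucc⟩
  have hprop : ∀ {X Y : Sq K M B f} (p : X ⟶ Y), Φ.prop p → GoodT θ p := by
    rintro X Y p ⟨⟩
    exact hi _ (Sq.e _)
  haveI : HasIterationOfShape J (Sq K M B f) :=
    { hasColimitsOfShape_of_isSuccLimit := by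
        intro j hj
        obtain ⟨i, hi⟩ := not_isMin_iff.1 hj.1
        haveI : Nonempty (Set.Iio j) := ⟨⟨i, hi⟩⟩
        exact hasColim dlm dlu
      hasColimitsOfShape := hasColim dlm dlu }
  let F : J ⥤ Sq K M B f := Φ.iterationFunctor J
  obtain ⟨c0, -⟩ := exists_colim dlm dlu F
  refine ⟨c0.pt.A, c0.pt.e, ?_, fun j => ⟨c0.pt.C j, c0.pt.g j, c0.pt.c j, c0.pt.w j⟩⟩
  by_contra hcon
  have hlt : #c0.pt.A.α < θ := not_le.1 hcon
  refine hcon ?_
  have hs : ∀ (a b : J) (h : a ≤ b) x, (c0.ι.app b).a ((F.map (homOfLE h)).a x) =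
      (c0.ι.app a).a x := by
    intro a b h x
    exact congrArg (fun p : F.obj a ⟶ c0.pt => p.a x) (c0.w (homOfLE h))
  have hsz : ∀ a : J, #(F.obj a).A.α < θ := fun a =>
    lt_of_le_of_lt (Cardinal.mk_le_of_injective ((c0.ι.app a).a).injective) hlt
  have hy : ∀ a : J, ∃ y : (F.obj (Order.succ a)).A.α,
      ∀ x, (F.map (homOfLE (Order.le_succ a))).a x ≠ y := by
    intro a
    by_contra hcon
    push Not at hcon
    exact hprop _ (Φ.prop_iterationFunctor_map_succ a (not_isMax a)) (hsz a) hcon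
  choose y hy using hy
  have hinj : Function.Injective
      (fun a : J => (show c0.pt.A.α from (c0.ι.app (Order.succ a)).a (y a))) := by
    intro a a' h
    replace h : (c0.ι.app (Order.succ a)).a (y a) = (c0.ι.app (Order.succ a')).a (y a') := h
    by_contra hne
    wlog hlt : a < a' generalizing a a' with H
    · exact H h.symm (Ne.symm hne) (lt_of_le_of_ne (not_lt.1 hlt) (Ne.symm hne))
    have h1 : Order.succ a ≤ a' := Order.succ_le_of_lt hlt
    have h2 : (c0.ι.app (Order.succ a)).a (y a) = (c0.ι.app (Order.succ a')).a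
        ((F.map (homOfLE (Order.le_succ a'))).a ((F.map (homOfLE h1)).a (y a))) := by
      rw [hs, hs]
    have h3 : (c0.ι.app (Order.succ a')).a
        ((F.map (homOfLE (Order.le_succ a'))).a ((F.map (homOfLE h1)).a (y a))) =
        (c0.ι.app (Order.succ a')).a (y a') := by
      rw [← h2]
      exact h
    exact hy a' _ (((c0.ι.app (Order.succ a')).a).injective h3)
  calc θ = #J := hJ.symm
    _ ≤ #c0.pt.A.α := Cardinal.mk_le_of_injective hinj

end Pool.Agent.AFX.H1
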